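import Mathlib

open MvPolynomial
open Complex (I I_sq I_pow_three I_pow_four)

namespace Pool.Agent.Results.MP_0c03d4_ag.Realizable

/-- The eight components: four conics and four lines. -/
inductive Component
  | conic (i : Fin 4)
  | line (i : Fin 4)
  deriving DecidableEq, Fintype

open Component

/-- Homogeneous polynomials in the three variables are polynomials of this type. -/
abbrev Poly := MvPolynomial (Fin 3) ℂ

/-- The gradient of a polynomial at a point. -/
noncomputable def grad (f : Poly) (p : Fin 3 → ℂ) : Fin 3 → ℂ := fun i => eval p (pderiv i f)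

/-- Two nonzero vectors are homogeneous coordinates of the same point of the projective plane. -/
def Same (p q : Fin 3 → ℂ) : Prop := ∃ c : ℂ, c ≠ 0 ∧ p = c • q

/-- `p` is a singular point of the curve `f = 0`. -/
def IsSing (f : Poly) (p : Fin 3 → ℂ) : Prop := eval p f = 0 ∧ grad f p = 0

/-- `f` defines a smooth curve of degree `d`. -/
def SmoothCurve (d : ℕ) (f : Poly) : Prop :=
  f.IsHomogeneous d ∧ f ≠ 0 ∧ ∀ p : Fin 3 → ℂ, p ≠ 0 → ¬ IsSing f p

/-- The curves `f = 0` and `g = 0` pass through `p`, both are smooth there and their tangent lines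
at `p` are different (the gradients are not proportional). -/
def TransversalAt (f g : Poly) (p : Fin 3 → ℂ) : Prop :=
  eval p f = 0 ∧ eval p g = 0 ∧ crossProduct (grad f p) (grad g p) ≠ 0

/-- The line `ℓ = 0` meets the conic `c = 0` only in `p`, with multiplicity two: the line is
spanned by `p` and another point `r`, and `c (s p + u r) = k u ^ 2` with `k ≠ 0`. -/
def SimplyTangentAt (ℓ c : Poly) (p : Fin 3 → ℂ) : Prop :=
  ∃ r : Fin 3 → ℂ, LinearIndependent ℂ ![p, r] ∧ eval p ℓ = 0 ∧ eval r ℓ = 0 ∧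
    ∃ k : ℂ, k ≠ 0 ∧ ∀ s u : ℂ, eval (s • p + u • r) c = k * u ^ 2

/-- The nine sets of components which pass through the nine ordinary quadruple points of `W`
(indices shifted by one: `0, 1, 2, 3` stand for `1, 2, 3, 4`). -/
def baseSet : Fin 9 → Finset Component := ![
  {conic 0, conic 1, line 2, line 3},
  {conic 0, conic 1, conic 2, conic 3},
  {conic 0, conic 1, conic 2, conic 3},
  {conic 0, conic 1, conic 2, conic 3},
  {line 0, line 1, conic 2, conic 3},
  {conic 0, line 1, line 2, conic 3},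
  {conic 0, line 1, conic 2, line 3},
  {line 0, conic 1, line 2, conic 3},
  {line 0, conic 1, conic 2, line 3}]

/-- The curve `∏ a, F a = 0` has the weak combinatorial type `W`, where `F (conic i)` is the
component `C_{i+1}` and `F (line i)` is the component `L_{i+1}`. -/
structure HasTypeW (F : Component → Poly) : Prop where
  conics : ∀ i, SmoothCurve 2 (F (conic i))
  lines : ∀ i, SmoothCurve 1 (F (line i))
  distinct : ∀ a b, a ≠ b → ¬ Associated (F a) (F b)
  points : ∃ (t : Fin 4 → Fin 3 → ℂ) (q : Fin 9 → Fin 3 → ℂ),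
    (∀ i, t i ≠ 0) ∧ (∀ j, q j ≠ 0) ∧
    (∀ i i', i ≠ i' → ¬ Same (t i) (t i')) ∧ (∀ j j', j ≠ j' → ¬ Same (q j) (q j')) ∧
    (∀ i j, ¬ Same (t i) (q j)) ∧
    -- the singular points of the curve are exactly the thirteen points `t i`, `q j`
    (∀ p, p ≠ 0 → (IsSing (∏ a, F a) p ↔ (∃ i, Same p (t i)) ∨ ∃ j, Same p (q j))) ∧
    -- the points of type `A_3`
    (∀ i, (∀ a, eval (t i) (F a) = 0 ↔ a = conic i ∨ a = line i) ∧
      SimplyTangentAt (F (line i)) (F (conic i)) (t i)) ∧
    -- the ordinary quadruple points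
    (∀ j, (∀ a, eval (q j) (F a) = 0 ↔ a ∈ baseSet j) ∧
      ∀ a ∈ baseSet j, ∀ b ∈ baseSet j, a ≠ b → TransversalAt (F a) (F b) (q j))

/-! ### The example -/


noncomputable def c1 (x y z : ℂ) : ℂ := -((y - z) ^ 2 + x * (y + z))
noncomputable def c2 (x y z : ℂ) : ℂ :=
  -2 * I * x ^ 2 - 2 * I * x * y + (-2 + 2 * I) * x * z + y * z + z ^ 2
noncomputable def c3 (x y z : ℂ) : ℂ :=
  2 * I * x ^ 2 + 2 * I * x * z + (-2 - 2 * I) * x * y + y * z + y ^ 2
noncomputable def c4 (x y z : ℂ) : ℂ :=
  -4 * y * z + (3 - 4 * I) * x * z + (3 + 4 * I) * x * y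

/-- The four conics. -/
noncomputable def Cc : Fin 4 → Poly := ![
  -((X 1 - X 2) ^ 2 + X 0 * (X 1 + X 2)),
  C (-2 * I) * X 0 ^ 2 + C (-2 * I) * (X 0 * X 1) + C (-2 + 2 * I) * (X 0 * X 2) + X 1 * X 2
    + X 2 ^ 2,
  C (2 * I) * X 0 ^ 2 + C (2 * I) * (X 0 * X 2) + C (-2 - 2 * I) * (X 0 * X 1) + X 1 * X 2
    + X 1 ^ 2,
  C (-4) * (X 1 * X 2) + C (3 - 4 * I) * (X 0 * X 2) + C (3 + 4 * I) * (X 0 * X 1)]

/-- The four lines. -/
noncomputable def Ll : Fin 4 → Poly := ![X 0, X 1, X 2, X 0 + X 1 + X 2]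

noncomputable def F : Component → Poly
  | conic j => Cc j
  | line j => Ll j

noncomputable def T : Fin 4 → Fin 3 → ℂ := ![
  ![0, 1, 1], ![1, 0, 1 - I], ![1, 1 + I, 0], ![2 * I, 2 - I, -2 - I]]

noncomputable def Q : Fin 9 → Fin 3 → ℂ := ![
  ![1, -1, 0],
  ![1, 2 - I, 2 + I],
  ![1 - I, 1 + 2 * I, 1],
  ![1 + I, 1, 1 - 2 * I],
  ![0, 0, 1],
  ![1, 0, 0],
  ![1, 0, -1],
  ![0, 1, 0],
  ![0, 1, -1]]

lemma ev1 (p : Fin 3 → ℂ) : eval p (F (conic 0)) = c1 (p 0) (p 1) (p 2) := by
  simp [F, Cc, c1]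
lemma ev2 (p : Fin 3 → ℂ) : eval p (F (conic 1)) = c2 (p 0) (p 1) (p 2) := by
  simp [F, Cc, c2]; ring
lemma ev3 (p : Fin 3 → ℂ) : eval p (F (conic 2)) = c3 (p 0) (p 1) (p 2) := by
  simp [F, Cc, c3]; ring
lemma ev4 (p : Fin 3 → ℂ) : eval p (F (conic 3)) = c4 (p 0) (p 1) (p 2) := by
  simp [F, Cc, c4]; ring
lemma el1 (p : Fin 3 → ℂ) : eval p (F (line 0)) = p 0 := by simp [F, Ll]
lemma el2 (p : Fin 3 → ℂ) : eval p (F (line 1)) = p 1 := by simp [F, Ll]
lemma el3 (p : Fin 3 → ℂ) : eval p (F (line 2)) = p 2 := by simp [F, Ll]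
lemma el4 (p : Fin 3 → ℂ) : eval p (F (line 3)) = p 0 + p 1 + p 2 := by simp [F, Ll]

lemma gl1 (p : Fin 3 → ℂ) : grad (F (line 0)) p = ![1, 0, 0] := by
  ext k; fin_cases k <;> simp [F, Ll, grad, pderiv_X]
lemma gl2 (p : Fin 3 → ℂ) : grad (F (line 1)) p = ![0, 1, 0] := by
  ext k; fin_cases k <;> simp [F, Ll, grad, pderiv_X]
lemma gl3 (p : Fin 3 → ℂ) : grad (F (line 2)) p = ![0, 0, 1] := by
  ext k; fin_cases k <;> simp [F, Ll, grad, pderiv_X]
lemma gl4 (p : Fin 3 → ℂ) : grad (F (line 3)) p = ![1, 1, 1] := by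
  ext k; fin_cases k <;> simp [F, Ll, grad, pderiv_X]

lemma gc1 (p : Fin 3 → ℂ) : grad (F (conic 0)) p =
    ![-(p 1 + p 2), -2 * (p 1 - p 2) - p 0, 2 * (p 1 - p 2) - p 0] := by
  ext k; fin_cases k <;> simp [F, Cc, grad, pderiv_X] <;> ring
lemma gc2 (p : Fin 3 → ℂ) : grad (F (conic 1)) p =
    ![-4 * I * p 0 - 2 * I * p 1 + (-2 + 2 * I) * p 2, -2 * I * p 0 + p 2,
      (-2 + 2 * I) * p 0 + p 1 + 2 * p 2] := by
  ext k; fin_cases k <;> simp [F, Cc, grad, pderiv_X] <;> ring
lemma gc3 (p : Fin 3 → ℂ) : grad (F (conic 2)) p =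
    ![4 * I * p 0 + 2 * I * p 2 + (-2 - 2 * I) * p 1, (-2 - 2 * I) * p 0 + p 2 + 2 * p 1,
      2 * I * p 0 + p 1] := by
  ext k; fin_cases k <;> simp [F, Cc, grad, pderiv_X] <;> ring
lemma gc4 (p : Fin 3 → ℂ) : grad (F (conic 3)) p =
    ![(3 - 4 * I) * p 2 + (3 + 4 * I) * p 1, -4 * p 2 + (3 + 4 * I) * p 0,
      -4 * p 1 + (3 - 4 * I) * p 0] := by
  ext k; fin_cases k <;> simp [F, Cc, grad, pderiv_X]


lemma same3 {p : Fin 3 → ℂ} (hp : p ≠ 0) (c : ℂ) {a b d : ℂ} (h0 : p 0 = c * a)
    (h1 : p 1 = c * b) (h2 : p 2 = c * d) : Same p ![a, b, d] := by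
  have h : p = c • ![a, b, d] := by
    ext k; fin_cases k <;> simp [h0, h1, h2]
  refine ⟨c, ?_, h⟩
  rintro rfl
  exact hp (by rw [h]; simp)

def Listed (p : Fin 3 → ℂ) : Prop := (∃ j, Same p (T j)) ∨ ∃ j, Same p (Q j)

section
variable {p : Fin 3 → ℂ} (hp : p ≠ 0)
include hp

lemma p12 (hx : p 0 = 0) (hy : p 1 = 0) : Listed p :=
  Or.inr ⟨4, same3 hp (p 2) (by rw [hx]; ring) (by rw [hy]; ring) (by ring)⟩
lemma p13 (hx : p 0 = 0) (hz : p 2 = 0) : Listed p :=
  Or.inr ⟨7, same3 hp (p 1) (by rw [hx]; ring) (by ring) (by rw [hz]; ring)⟩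
lemma p23 (hy : p 1 = 0) (hz : p 2 = 0) : Listed p :=
  Or.inr ⟨5, same3 hp (p 0) (by ring) (by rw [hy]; ring) (by rw [hz]; ring)⟩
lemma p14 (hx : p 0 = 0) (hw : p 0 + p 1 + p 2 = 0) : Listed p :=
  Or.inr ⟨8, same3 hp (p 1) (by rw [hx]; ring) (by ring) (by linear_combination hw - hx)⟩
lemma p24 (hy : p 1 = 0) (hw : p 0 + p 1 + p 2 = 0) : Listed p :=
  Or.inr ⟨6, same3 hp (p 0) (by ring) (by rw [hy]; ring) (by linear_combination hw - hy)⟩
lemma p34 (hz : p 2 = 0) (hw : p 0 + p 1 + p 2 = 0) : Listed p :=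
  Or.inr ⟨0, same3 hp (p 0) (by ring) (by linear_combination hw - hz) (by rw [hz]; ring)⟩

lemma onL1 (h : p 0 = 0) (b : Component) (hb : b ≠ line 0) (he : eval p (F b) = 0) :
    Listed p := by
  rcases b with j | j <;> fin_cases j
  · change eval p (F (conic 0)) = 0 at he
    rw [ev1, c1, h] at he
    have h2 : (p 1 - p 2) ^ 2 = 0 := by linear_combination -he
    have h3 : p 1 - p 2 = 0 := by simpa using h2
    exact Or.inl ⟨0, same3 hp (p 1) (by rw [h]; ring) (by ring) (by linear_combination -h3)⟩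
  · change eval p (F (conic 1)) = 0 at he
    rw [ev2, c2, h] at he
    have h2 : p 2 * (p 1 + p 2) = 0 := by linear_combination he
    rcases mul_eq_zero.1 h2 with h3 | h3
    · exact p13 hp h h3
    · exact p14 hp h (by linear_combination h + h3)
  · change eval p (F (conic 2)) = 0 at he
    rw [ev3, c3, h] at he
    have h2 : p 1 * (p 1 + p 2) = 0 := by linear_combination he
    rcases mul_eq_zero.1 h2 with h3 | h3
    · exact p12 hp h h3
    · exact p14 hp h (by linear_combination h + h3)
  · change eval p (F (conic 3)) = 0 at he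
    rw [ev4, c4, h] at he
    have h2 : p 1 * p 2 = 0 := by linear_combination (-1 / 4 : ℂ) * he
    rcases mul_eq_zero.1 h2 with h3 | h3
    · exact p12 hp h h3
    · exact p13 hp h h3
  · exact absurd rfl hb
  · change eval p (F (line 1)) = 0 at he
    rw [el2] at he
    exact p12 hp h he
  · change eval p (F (line 2)) = 0 at he
    rw [el3] at he
    exact p13 hp h he
  · change eval p (F (line 3)) = 0 at he
    rw [el4] at he
    exact p14 hp h he

lemma onL2 (h : p 1 = 0) (b : Component) (hb : b ≠ line 1) (he : eval p (F b) = 0) :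
    Listed p := by
  rcases b with j | j <;> fin_cases j
  · change eval p (F (conic 0)) = 0 at he
    rw [ev1, c1, h] at he
    have h2 : p 2 * (p 0 + p 2) = 0 := by linear_combination -he
    rcases mul_eq_zero.1 h2 with h3 | h3
    · exact p23 hp h h3
    · exact p24 hp h (by linear_combination h + h3)
  · change eval p (F (conic 1)) = 0 at he
    rw [ev2, c2, h] at he
    have h2 : (p 2 + (-1 + I) * p 0) ^ 2 = 0 := by linear_combination (norm := (ring_nf <;>
        (try simp only [I_sq, I_pow_three, I_pow_four]) <;> (try ring_nf))) he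
    have h3 : p 2 + (-1 + I) * p 0 = 0 := by simpa using h2
    exact Or.inl ⟨1, same3 hp (p 0) (by ring) (by rw [h]; ring) (by linear_combination h3)⟩
  · change eval p (F (conic 2)) = 0 at he
    rw [ev3, c3, h] at he
    have h2 : (2 * I) * (p 0 * (p 0 + p 2)) = 0 := by linear_combination he
    rcases mul_eq_zero.1 h2 with h3 | h3
    · simp at h3
    rcases mul_eq_zero.1 h3 with h3 | h3
    · exact p12 hp h3 h
    · exact p24 hp h (by linear_combination h + h3)
  · change eval p (F (conic 3)) = 0 at he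
    rw [ev4, c4, h] at he
    have h2 : (3 - 4 * I) * (p 0 * p 2) = 0 := by linear_combination he
    rcases mul_eq_zero.1 h2 with h3 | h3
    · simp [Complex.ext_iff] at h3
    rcases mul_eq_zero.1 h3 with h3 | h3
    · exact p12 hp h3 h
    · exact p23 hp h h3
  · change eval p (F (line 0)) = 0 at he
    rw [el1] at he
    exact p12 hp he h
  · exact absurd rfl hb
  · change eval p (F (line 2)) = 0 at he
    rw [el3] at he
    exact p23 hp h he
  · change eval p (F (line 3)) = 0 at he
    rw [el4] at he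
    exact p24 hp h he

lemma onL3 (h : p 2 = 0) (b : Component) (hb : b ≠ line 2) (he : eval p (F b) = 0) :
    Listed p := by
  rcases b with j | j <;> fin_cases j
  · change eval p (F (conic 0)) = 0 at he
    rw [ev1, c1, h] at he
    have h2 : p 1 * (p 0 + p 1) = 0 := by linear_combination -he
    rcases mul_eq_zero.1 h2 with h3 | h3
    · exact p23 hp h3 h
    · exact p34 hp h (by linear_combination h + h3)
  · change eval p (F (conic 1)) = 0 at he
    rw [ev2, c2, h] at he
    have h2 : (2 * I) * (p 0 * (p 0 + p 1)) = 0 := by linear_combination -he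
    rcases mul_eq_zero.1 h2 with h3 | h3
    · simp at h3
    rcases mul_eq_zero.1 h3 with h3 | h3
    · exact p13 hp h3 h
    · exact p34 hp h (by linear_combination h + h3)
  · change eval p (F (conic 2)) = 0 at he
    rw [ev3, c3, h] at he
    have h2 : (p 1 - (1 + I) * p 0) ^ 2 = 0 := by linear_combination (norm := (ring_nf <;>
        (try simp only [I_sq, I_pow_three, I_pow_four]) <;> (try ring_nf))) he
    have h3 : p 1 - (1 + I) * p 0 = 0 := by simpa using h2
    exact Or.inl ⟨2, same3 hp (p 0) (by ring) (by linear_combination h3) (by rw [h]; ring)⟩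
  · change eval p (F (conic 3)) = 0 at he
    rw [ev4, c4, h] at he
    have h2 : (3 + 4 * I) * (p 0 * p 1) = 0 := by linear_combination he
    rcases mul_eq_zero.1 h2 with h3 | h3
    · simp [Complex.ext_iff] at h3
    rcases mul_eq_zero.1 h3 with h3 | h3
    · exact p13 hp h3 h
    · exact p23 hp h3 h
  · change eval p (F (line 0)) = 0 at he
    rw [el1] at he
    exact p13 hp he h
  · change eval p (F (line 1)) = 0 at he
    rw [el2] at he
    exact p23 hp he h
  · exact absurd rfl hb
  · change eval p (F (line 3)) = 0 at he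
    rw [el4] at he
    exact p34 hp h he

lemma onL4 (h : p 0 + p 1 + p 2 = 0) (b : Component) (hb : b ≠ line 3)
    (he : eval p (F b) = 0) : Listed p := by
  rcases b with j | j <;> fin_cases j
  · change eval p (F (conic 0)) = 0 at he
    rw [ev1, c1] at he
    have h2 : p 1 * p 2 = 0 := by
      linear_combination (1 / 4 : ℂ) * he + (1 / 4 : ℂ) * (p 1 + p 2) * h
    rcases mul_eq_zero.1 h2 with h3 | h3
    · exact p24 hp h3 h
    · exact p34 hp h3 h
  · change eval p (F (conic 1)) = 0 at he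
    rw [ev2, c2] at he
    have h2 : (-3 + 4 * I) * (p 0 * p 2) = 0 := by
      linear_combination he + (2 * I * p 0 - p 2) * h
    rcases mul_eq_zero.1 h2 with h3 | h3
    · simp [Complex.ext_iff] at h3
    rcases mul_eq_zero.1 h3 with h3 | h3
    · exact p14 hp h3 h
    · exact p34 hp h3 h
  · change eval p (F (conic 2)) = 0 at he
    rw [ev3, c3] at he
    have h2 : (-3 - 4 * I) * (p 0 * p 1) = 0 := by
      linear_combination he - (2 * I * p 0 + p 1) * h
    rcases mul_eq_zero.1 h2 with h3 | h3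
    · simp [Complex.ext_iff] at h3
    rcases mul_eq_zero.1 h3 with h3 | h3
    · exact p14 hp h3 h
    · exact p24 hp h3 h
  · change eval p (F (conic 3)) = 0 at he
    rw [ev4, c4] at he
    have h2 : ((2 + I) * p 1 + (2 - I) * p 2) ^ 2 = 0 := by
      linear_combination (norm := (ring_nf <;>
        (try simp only [I_sq, I_pow_three, I_pow_four]) <;> (try ring_nf))) -he + ((3 - 4 * I) * p 2 + (3 + 4 * I) * p 1) * h
    have h3 : (2 + I) * p 1 + (2 - I) * p 2 = 0 := by simpa using h2
    have h4 : p 2 = -(3 + 4 * I) / 5 * p 1 := by linear_combination (norm := (ring_nf <;>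
        (try simp only [I_sq, I_pow_three, I_pow_four]) <;> (try ring_nf))) ((2 + I) / 5) * h3
    have e0 : p 0 = (2 + I) / 5 * p 1 * (2 * I) := by
      linear_combination (norm := (ring_nf <;>
        (try simp only [I_sq, I_pow_three, I_pow_four]) <;> (try ring_nf))) h - h4
    have e1 : p 1 = (2 + I) / 5 * p 1 * (2 - I) := by
      linear_combination (norm := (ring_nf <;>
        (try simp only [I_sq, I_pow_three, I_pow_four]) <;> (try ring_nf))) (0 : ℂ) * h4
    have e2 : p 2 = (2 + I) / 5 * p 1 * (-2 - I) := by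
      linear_combination (norm := (ring_nf <;>
        (try simp only [I_sq, I_pow_three, I_pow_four]) <;> (try ring_nf))) h4
    exact Or.inl ⟨3, same3 hp _ e0 e1 e2⟩
  · change eval p (F (line 0)) = 0 at he
    rw [el1] at he
    exact p14 hp he h
  · change eval p (F (line 1)) = 0 at he
    rw [el2] at he
    exact p24 hp he h
  · change eval p (F (line 2)) = 0 at he
    rw [el3] at he
    exact p34 hp he h
  · exact absurd rfl hb

lemma onCC (hx : p 0 ≠ 0) (h2 : c2 (p 0) (p 1) (p 2) = 0) (h3 : c3 (p 0) (p 1) (p 2) = 0) :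
    Listed p := by
  obtain ⟨x, hx'⟩ : ∃ x, x = p 0 := ⟨_, rfl⟩
  obtain ⟨y, hy'⟩ : ∃ x, x = p 1 := ⟨_, rfl⟩
  obtain ⟨z, hz'⟩ : ∃ x, x = p 2 := ⟨_, rfl⟩
  obtain ⟨s, hs⟩ : ∃ s, s = x + y + z := ⟨_, rfl⟩
  rw [← hx', ← hy', ← hz'] at h2 h3
  rw [← hx'] at hx
  rw [c2] at h2
  rw [c3] at h3
  have hz : z * (s - (3 - 4 * I) * x) = 2 * I * x * s := by
    rw [hs]; linear_combination h2
  have hy : y * (s - (3 + 4 * I) * x) = -2 * I * x * s := by
    rw [hs]; linear_combination h3
  have key : (s - 5 * x) * ((s - (1 + 2 * I) * x) * (s - (1 - 2 * I) * x)) = 0 := by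
    linear_combination (norm := (ring_nf <;>
        (try simp only [I_sq, I_pow_three, I_pow_four]) <;> (try ring_nf))) (s - (3 - 4 * I) * x) * hy + (s - (3 + 4 * I) * x) * hz +
      (s - (3 - 4 * I) * x) * (s - (3 + 4 * I) * x) * hs
  rcases mul_eq_zero.1 key with h | h
  · have e : s = 5 * x := by linear_combination h
    rw [e] at hy hz
    have hz2 : x * (z - (2 + I) * x) = 0 := by
      linear_combination (norm := (ring_nf <;>
        (try simp only [I_sq, I_pow_three, I_pow_four]) <;> (try ring_nf))) ((2 - 4 * I) / 20) * hz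
    have hy2 : x * (y - (2 - I) * x) = 0 := by
      linear_combination (norm := (ring_nf <;>
        (try simp only [I_sq, I_pow_three, I_pow_four]) <;> (try ring_nf))) ((2 + 4 * I) / 20) * hy
    have hz3 := (mul_eq_zero.1 hz2).resolve_left hx
    have hy3 := (mul_eq_zero.1 hy2).resolve_left hx
    exact Or.inr ⟨1, same3 hp x (by rw [← hx']; ring) (by rw [← hy']; linear_combination hy3)
      (by rw [← hz']; linear_combination hz3)⟩
  rcases mul_eq_zero.1 h with h | h
  · have e : s = (1 + 2 * I) * x := by linear_combination h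
    rw [e] at hy hz
    have hz2 : x * (z - (1 + I) / 2 * x) = 0 := by
      linear_combination (norm := (ring_nf <;>
        (try simp only [I_sq, I_pow_three, I_pow_four]) <;> (try ring_nf))) ((-2 - 6 * I) / 40) * hz
    have hy2 : x * (y - (-1 + 3 * I) / 2 * x) = 0 := by
      linear_combination (norm := (ring_nf <;>
        (try simp only [I_sq, I_pow_three, I_pow_four]) <;> (try ring_nf))) ((-2 + 2 * I) / 8) * hy
    have hz3 := (mul_eq_zero.1 hz2).resolve_left hx
    have hy3 := (mul_eq_zero.1 hy2).resolve_left hx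
    exact Or.inr ⟨2, same3 hp z (by rw [← hx']; linear_combination (norm := (ring_nf <;>
        (try simp only [I_sq, I_pow_three, I_pow_four]) <;> (try ring_nf))) -(1 - I) * hz3)
      (by rw [← hy']; linear_combination (norm := (ring_nf <;>
        (try simp only [I_sq, I_pow_three, I_pow_four]) <;> (try ring_nf))) hy3 - (1 + 2 * I) * hz3)
      (by rw [← hz']; ring)⟩
  · have e : s = (1 - 2 * I) * x := by linear_combination h
    rw [e] at hy hz
    have hz2 : x * (z - (-1 - 3 * I) / 2 * x) = 0 := by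
      linear_combination (norm := (ring_nf <;>
        (try simp only [I_sq, I_pow_three, I_pow_four]) <;> (try ring_nf))) ((-2 - 2 * I) / 8) * hz
    have hy2 : x * (y - (1 - I) / 2 * x) = 0 := by
      linear_combination (norm := (ring_nf <;>
        (try simp only [I_sq, I_pow_three, I_pow_four]) <;> (try ring_nf))) ((-2 + 6 * I) / 40) * hy
    have hz3 := (mul_eq_zero.1 hz2).resolve_left hx
    have hy3 := (mul_eq_zero.1 hy2).resolve_left hx
    exact Or.inr ⟨3, same3 hp y (by rw [← hx']; linear_combination (norm := (ring_nf <;>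
        (try simp only [I_sq, I_pow_three, I_pow_four]) <;> (try ring_nf))) -(1 + I) * hy3)
      (by rw [← hy']; ring)
      (by rw [← hz']; linear_combination (norm := (ring_nf <;>
        (try simp only [I_sq, I_pow_three, I_pow_four]) <;> (try ring_nf))) hz3 - (1 - 2 * I) * hy3)⟩

end

lemma two_zero (A : Fin 4 → ℂ) {x y z w : ℂ} (hy : y ≠ 0) (hz : z ≠ 0)
    (r1 : 2 * I * A 0 * x - A 1 * y + A 2 * z = 0)
    (r2 : (-3 - 4 * I) * A 0 * x - 4 * A 2 * z + A 3 * w = 0)
    (r3 : (-3 - 4 * I) * A 1 * y - (-3 + 4 * I) * A 2 * z + 2 * I * A 3 * w = 0)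
    {j k : Fin 4} (hjk : j ≠ k) (hj : A j = 0) (hk : A k = 0) : A 1 = 0 ∧ A 2 = 0 := by
  have f1 : A 0 = 0 → A 1 = 0 → A 2 = 0 := by
    intro a b
    rw [a, b] at r1
    have : A 2 * z = 0 := by linear_combination r1
    exact (mul_eq_zero.1 this).resolve_right hz
  have f2 : A 0 = 0 → A 2 = 0 → A 1 = 0 := by
    intro a b
    rw [a, b] at r1
    have : A 1 * y = 0 := by linear_combination -r1
    exact (mul_eq_zero.1 this).resolve_right hy
  have f3 : A 0 = 0 → A 3 = 0 → A 2 = 0 := by
    intro a b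
    rw [a, b] at r2
    have : A 2 * z = 0 := by linear_combination (-1 / 4 : ℂ) * r2
    exact (mul_eq_zero.1 this).resolve_right hz
  have f4 : A 1 = 0 → A 3 = 0 → A 2 = 0 := by
    intro a b
    rw [a, b] at r3
    have : (3 - 4 * I) * (A 2 * z) = 0 := by linear_combination r3
    rcases mul_eq_zero.1 this with h | h
    · simp [Complex.ext_iff] at h
    · exact (mul_eq_zero.1 h).resolve_right hz
  have f5 : A 2 = 0 → A 3 = 0 → A 1 = 0 := by
    intro a b
    rw [a, b] at r3
    have : (-3 - 4 * I) * (A 1 * y) = 0 := by linear_combination r3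
    rcases mul_eq_zero.1 this with h | h
    · simp [Complex.ext_iff] at h
    · exact (mul_eq_zero.1 h).resolve_right hy
  fin_cases j <;> fin_cases k <;> simp at hj hk hjk <;> tauto

lemma evc (p : Fin 3 → ℂ) (j : Fin 4) : eval p (F (conic j)) =
    ![c1 (p 0) (p 1) (p 2), c2 (p 0) (p 1) (p 2), c3 (p 0) (p 1) (p 2),
      c4 (p 0) (p 1) (p 2)] j := by
  fin_cases j
  · exact ev1 p
  · exact ev2 p
  · exact ev3 p
  · exact ev4 p

lemma evl (p : Fin 3 → ℂ) (j : Fin 4) : eval p (F (line j)) =
    ![p 0, p 1, p 2, p 0 + p 1 + p 2] j := by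
  fin_cases j
  · exact el1 p
  · exact el2 p
  · exact el3 p
  · exact el4 p

lemma classify {p : Fin 3 → ℂ} (hp : p ≠ 0) {a b : Component} (hab : a ≠ b)
    (ha : eval p (F a) = 0) (hb : eval p (F b) = 0) : Listed p := by
  by_cases hx : p 0 = 0
  · by_cases h : a = line 0
    · exact onL1 hp hx b (fun e => hab (h.trans e.symm)) hb
    · exact onL1 hp hx a h ha
  by_cases hy : p 1 = 0
  · by_cases h : a = line 1
    · exact onL2 hp hy b (fun e => hab (h.trans e.symm)) hb
    · exact onL2 hp hy a h ha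
  by_cases hz : p 2 = 0
  · by_cases h : a = line 2
    · exact onL3 hp hz b (fun e => hab (h.trans e.symm)) hb
    · exact onL3 hp hz a h ha
  by_cases hw : p 0 + p 1 + p 2 = 0
  · by_cases h : a = line 3
    · exact onL4 hp hw b (fun e => hab (h.trans e.symm)) hb
    · exact onL4 hp hw a h ha
  have hl : ∀ j, eval p (F (line j)) ≠ 0 := by
    intro j
    rw [evl]
    fin_cases j
    · exact hx
    · exact hy
    · exact hz
    · exact hw
  rcases a with j | j
  · rcases b with k | k
    · rw [evc] at ha hb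
      have hjk : j ≠ k := fun e => hab (by rw [e])
      have := two_zero ![c1 (p 0) (p 1) (p 2), c2 (p 0) (p 1) (p 2), c3 (p 0) (p 1) (p 2),
        c4 (p 0) (p 1) (p 2)] (x := p 0) (w := -(p 0 + p 1 + p 2)) hy hz
        (by simp only [c1, c2, c3, c4, Matrix.cons_val]
            linear_combination (norm := (ring_nf <;>
              (try simp only [I_sq, I_pow_three, I_pow_four]) <;> (try ring_nf))) (0 : ℂ))
        (by simp only [c1, c2, c3, c4, Matrix.cons_val]
            linear_combination (norm := (ring_nf <;>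
              (try simp only [I_sq, I_pow_three, I_pow_four]) <;> (try ring_nf))) (0 : ℂ))
        (by simp only [c1, c2, c3, c4, Matrix.cons_val]
            linear_combination (norm := (ring_nf <;>
              (try simp only [I_sq, I_pow_three, I_pow_four]) <;> (try ring_nf))) (0 : ℂ))
        hjk ha hb
      exact onCC hp hx this.1 this.2
    · exact absurd hb (hl k)
  · exact absurd ha (hl j)

lemma smooth_line (j : Fin 4) (p : Fin 3 → ℂ) : grad (F (line j)) p ≠ 0 := by
  intro h
  fin_cases j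
  · have := congrFun ((gl1 p).symm.trans h) 0
    simp at this
  · have := congrFun ((gl2 p).symm.trans h) 1
    simp at this
  · have := congrFun ((gl3 p).symm.trans h) 2
    simp at this
  · have := congrFun ((gl4 p).symm.trans h) 0
    simp at this

lemma smooth_conic (j : Fin 4) (p : Fin 3 → ℂ) (h : grad (F (conic j)) p = 0) : p = 0 := by
  have key : p 0 = 0 ∧ p 1 = 0 ∧ p 2 = 0 := by
    fin_cases j
    · have h' := (gc1 p).symm.trans h
      have e0 := congrFun h' 0
      have e1 := congrFun h' 1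
      have e2 := congrFun h' 2
      simp only [Matrix.cons_val, Pi.zero_apply] at e0 e1 e2
      refine ⟨?_, ?_, ?_⟩
      · linear_combination (-1 / 2 : ℂ) * e1 - (1 / 2 : ℂ) * e2
      · linear_combination (-1 / 2 : ℂ) * e0 - (1 / 8 : ℂ) * e1 + (1 / 8 : ℂ) * e2
      · linear_combination (-1 / 2 : ℂ) * e0 + (1 / 8 : ℂ) * e1 - (1 / 8 : ℂ) * e2
    · have h' := (gc2 p).symm.trans h
      have e0 := congrFun h' 0
      have e1 := congrFun h' 1
      have e2 := congrFun h' 2
      simp only [Matrix.cons_val, Pi.zero_apply] at e0 e1 e2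
      have hz : p 2 = 2 * I * p 0 := by linear_combination e1
      have hy : p 1 = (2 - 6 * I) * p 0 := by linear_combination e2 - 2 * hz
      rw [hy, hz] at e0
      have hx : p 0 = 0 := by
        linear_combination (norm := (ring_nf <;>
          (try simp only [I_sq, I_pow_three, I_pow_four]) <;> (try ring_nf)))
          ((-16 + 12 * I) / 400) * e0
      refine ⟨hx, ?_, ?_⟩
      · rw [hy, hx, mul_zero]
      · rw [hz, hx, mul_zero]
    · have h' := (gc3 p).symm.trans h
      have e0 := congrFun h' 0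
      have e1 := congrFun h' 1
      have e2 := congrFun h' 2
      simp only [Matrix.cons_val, Pi.zero_apply] at e0 e1 e2
      have hz : p 1 = -2 * I * p 0 := by linear_combination e2
      have hy : p 2 = (2 + 6 * I) * p 0 := by linear_combination e1 - 2 * hz
      rw [hy, hz] at e0
      have hx : p 0 = 0 := by
        linear_combination (norm := (ring_nf <;>
          (try simp only [I_sq, I_pow_three, I_pow_four]) <;> (try ring_nf)))
          ((-16 - 12 * I) / 400) * e0
      refine ⟨hx, ?_, ?_⟩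
      · rw [hz, hx, mul_zero]
      · rw [hy, hx, mul_zero]
    · have h' := (gc4 p).symm.trans h
      have e0 := congrFun h' 0
      have e1 := congrFun h' 1
      have e2 := congrFun h' 2
      simp only [Matrix.cons_val, Pi.zero_apply] at e0 e1 e2
      have hz : p 2 = (3 + 4 * I) / 4 * p 0 := by linear_combination (-1 / 4 : ℂ) * e1
      have hy : p 1 = (3 - 4 * I) / 4 * p 0 := by linear_combination (-1 / 4 : ℂ) * e2
      rw [hy, hz] at e0
      have hx : p 0 = 0 := by
        linear_combination (norm := (ring_nf <;>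
          (try simp only [I_sq, I_pow_three, I_pow_four]) <;> (try ring_nf)))
          (4 / 50 : ℂ) * e0
      refine ⟨hx, ?_, ?_⟩
      · rw [hy, hx, mul_zero]
      · rw [hz, hx, mul_zero]
  ext k
  fin_cases k
  · exact key.1
  · exact key.2.1
  · exact key.2.2

lemma smooth (a : Component) (p : Fin 3 → ℂ) (hp : p ≠ 0) : grad (F a) p ≠ 0 := by
  rcases a with j | j
  · exact fun h => hp (smooth_conic j p h)
  · exact smooth_line j p

lemma hom_C (c : ℂ) {f : Poly} {n : ℕ} (h : f.IsHomogeneous n) : (C c * f).IsHomogeneous n := by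
  simpa using (isHomogeneous_C (Fin 3) c).mul h

lemma hom_XX (j k : Fin 3) : (X j * X k : Poly).IsHomogeneous 2 :=
  (isHomogeneous_X ℂ j).mul (isHomogeneous_X ℂ k)

lemma hom_X2 (j : Fin 3) : (X j ^ 2 : Poly).IsHomogeneous 2 := by
  simpa using (isHomogeneous_X ℂ j).pow 2

lemma hom_conic (j : Fin 4) : (F (conic j)).IsHomogeneous 2 := by
  fin_cases j
  · change (-((X 1 - X 2) ^ 2 + X 0 * (X 1 + X 2)) : Poly).IsHomogeneous 2
    refine IsHomogeneous.neg (IsHomogeneous.add ?_ ?_)
    · simpa using ((isHomogeneous_X ℂ (1 : Fin 3)).sub (isHomogeneous_X ℂ 2)).pow 2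
    · exact (isHomogeneous_X ℂ 0).mul ((isHomogeneous_X ℂ 1).add (isHomogeneous_X ℂ 2))
  · exact ((((hom_C _ (hom_X2 0)).add (hom_C _ (hom_XX 0 1))).add (hom_C _ (hom_XX 0 2))).add
      (hom_XX 1 2)).add (hom_X2 2)
  · exact ((((hom_C _ (hom_X2 0)).add (hom_C _ (hom_XX 0 2))).add (hom_C _ (hom_XX 0 1))).add
      (hom_XX 1 2)).add (hom_X2 1)
  · exact ((hom_C _ (hom_XX 1 2)).add (hom_C _ (hom_XX 0 2))).add (hom_C _ (hom_XX 0 1))

lemma hom_line (j : Fin 4) : (F (line j)).IsHomogeneous 1 := by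
  fin_cases j
  · exact isHomogeneous_X ℂ 0
  · exact isHomogeneous_X ℂ 1
  · exact isHomogeneous_X ℂ 2
  · exact ((isHomogeneous_X ℂ 0).add (isHomogeneous_X ℂ 1)).add (isHomogeneous_X ℂ 2)

lemma F_ne (a : Component) : F a ≠ 0 := by
  intro h
  refine smooth a ![1, 0, 0] ?_ ?_
  · intro h'
    simpa using congrFun h' 0
  · ext k
    simp [grad, h]

lemma smoothCurve_conic (j : Fin 4) : SmoothCurve 2 (F (conic j)) :=
  ⟨hom_conic j, F_ne _, fun p hp h => smooth _ p hp h.2⟩

lemma smoothCurve_line (j : Fin 4) : SmoothCurve 1 (F (line j)) :=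
  ⟨hom_line j, F_ne _, fun p hp h => smooth _ p hp h.2⟩

lemma incT (j : Fin 4) (a : Component) :
    eval (T j) (F a) = 0 ↔ a = conic j ∨ a = line j := by
  rcases a with k | k
  · rw [evc]
    fin_cases j <;> fin_cases k <;> simp [T, c1, c2, c3, c4] <;>
      simp [Complex.ext_iff, pow_two] <;> norm_num
  · rw [evl]
    fin_cases j <;> fin_cases k <;> simp [T] <;> simp [Complex.ext_iff] <;> norm_num

lemma incQ (j : Fin 9) (a : Component) : eval (Q j) (F a) = 0 ↔ a ∈ baseSet j := by
  rcases a with k | k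
  · rw [evc]
    fin_cases j <;> fin_cases k <;> simp [Q, c1, c2, c3, c4, baseSet] <;>
      simp [Complex.ext_iff, pow_two] <;> norm_num
  · rw [evl]
    fin_cases j <;> fin_cases k <;> simp [Q, baseSet] <;> simp [Complex.ext_iff] <;> norm_num

lemma tangent (j : Fin 4) : SimplyTangentAt (F (line j)) (F (conic j)) (T j) := by
  fin_cases j
  · refine ⟨![0, 1, 0], ?_, ?_, ?_, -1, by norm_num, ?_⟩
    · rw [LinearIndependent.pair_iff]
      intro s t h
      have e1 := congrFun h 1
      have e2 := congrFun h 2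
      simp [T] at e1 e2
      exact ⟨e2, by rw [e2] at e1; simpa using e1⟩
    · exact (incT 0 (line 0)).2 (Or.inr rfl)
    · exact (evl _ 0).trans (by simp)
    · intro s u
      refine (evc _ 0).trans ?_
      simp [T, c1]
  · refine ⟨![0, 0, 1], ?_, ?_, ?_, 1, by norm_num, ?_⟩
    · rw [LinearIndependent.pair_iff]
      intro s t h
      have e1 := congrFun h 0
      have e2 := congrFun h 2
      simp [T] at e1 e2
      exact ⟨e1, by rw [e1] at e2; simpa using e2⟩
    · exact (incT 1 (line 1)).2 (Or.inr rfl)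
    · exact (evl _ 1).trans (by simp)
    · intro s u
      refine (evc _ 1).trans ?_
      simp [T, c2]
      linear_combination (norm := (ring_nf <;>
          (try simp only [I_sq, I_pow_three, I_pow_four]) <;> (try ring_nf))) (0 : ℂ)
  · refine ⟨![0, 1, 0], ?_, ?_, ?_, 1, by norm_num, ?_⟩
    · rw [LinearIndependent.pair_iff]
      intro s t h
      have e1 := congrFun h 0
      have e2 := congrFun h 1
      simp [T] at e1 e2
      exact ⟨e1, by rw [e1] at e2; simpa using e2⟩
    · exact (incT 2 (line 2)).2 (Or.inr rfl)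
    · exact (evl _ 2).trans (by simp)
    · intro s u
      refine (evc _ 2).trans ?_
      simp [T, c3]
      linear_combination (norm := (ring_nf <;>
          (try simp only [I_sq, I_pow_three, I_pow_four]) <;> (try ring_nf))) (0 : ℂ)
  · refine ⟨![0, 1, -1], ?_, ?_, ?_, 4, by norm_num, ?_⟩
    · rw [LinearIndependent.pair_iff]
      intro s t h
      have e1 := congrFun h 0
      have e2 := congrFun h 1
      simp [T] at e1 e2
      exact ⟨e1, by rw [e1] at e2; simpa using e2⟩
    · exact (incT 3 (line 3)).2 (Or.inr rfl)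
    · exact (evl _ 3).trans (by simp)
    · intro s u
      refine (evc _ 3).trans ?_
      simp [T, c4]
      linear_combination (norm := (ring_nf <;>
          (try simp only [I_sq, I_pow_three, I_pow_four]) <;> (try ring_nf))) (0 : ℂ)

/-- all gradients at once -/
lemma gc (p : Fin 3 → ℂ) (j : Fin 4) : grad (F (conic j)) p =
    ![![-(p 1 + p 2), -2 * (p 1 - p 2) - p 0, 2 * (p 1 - p 2) - p 0],
      ![-4 * I * p 0 - 2 * I * p 1 + (-2 + 2 * I) * p 2, -2 * I * p 0 + p 2,
      (-2 + 2 * I) * p 0 + p 1 + 2 * p 2],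
      ![4 * I * p 0 + 2 * I * p 2 + (-2 - 2 * I) * p 1, (-2 - 2 * I) * p 0 + p 2 + 2 * p 1,
      2 * I * p 0 + p 1],
      ![(3 - 4 * I) * p 2 + (3 + 4 * I) * p 1, -4 * p 2 + (3 + 4 * I) * p 0,
      -4 * p 1 + (3 - 4 * I) * p 0]] j := by
  fin_cases j
  · exact gc1 p
  · exact gc2 p
  · exact gc3 p
  · exact gc4 p

lemma gl (p : Fin 3 → ℂ) (j : Fin 4) : grad (F (line j)) p =
    ![![1, 0, 0], ![0, 1, 0], ![0, 0, 1], ![1, 1, 1]] j := by
  fin_cases j
  · exact gl1 p
  · exact gl2 p
  · exact gl3 p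
  · exact gl4 p

lemma cross_ne {u v : Fin 3 → ℂ} (h : u 1 * v 2 - u 2 * v 1 ≠ 0 ∨ u 2 * v 0 - u 0 * v 2 ≠ 0 ∨
    u 0 * v 1 - u 1 * v 0 ≠ 0) : crossProduct u v ≠ 0 := by
  intro h'
  rw [cross_apply] at h'
  have e0 := congrFun h' 0
  have e1 := congrFun h' 1
  have e2 := congrFun h' 2
  simp only [Matrix.cons_val, Pi.zero_apply] at e0 e1 e2
  rcases h with h | h | h
  · exact h e0
  · exact h e1
  · exact h e2

lemma trans_aux (j : Fin 9) (a : Component) (ha : a ∈ baseSet j) (b : Component)
    (hb : b ∈ baseSet j) (hab : a ≠ b) : crossProduct (grad (F a) (Q j)) (grad (F b) (Q j)) ≠ 0 := by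
  rcases a with k | k <;> rcases b with l | l
  · rw [gc, gc]
    apply cross_ne
    fin_cases j <;> fin_cases k <;> fin_cases l <;>
      first
      | exact absurd rfl hab
      | exact absurd ha (by decide)
      | exact absurd hb (by decide)
      | (left; simp [Q, Complex.ext_iff]; norm_num; done)
      | (right; left; simp [Q, Complex.ext_iff]; norm_num; done)
      | (right; right; simp [Q, Complex.ext_iff]; norm_num; done)
      | (left; simp [Q, Complex.ext_iff]; done)
      | (right; left; simp [Q, Complex.ext_iff]; done)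
      | (right; right; simp [Q, Complex.ext_iff]; done)
  · rw [gc, gl]
    apply cross_ne
    fin_cases j <;> fin_cases k <;> fin_cases l <;>
      first
      | exact absurd ha (by decide)
      | exact absurd hb (by decide)
      | (left; simp [Q, Complex.ext_iff]; norm_num; done)
      | (right; left; simp [Q, Complex.ext_iff]; norm_num; done)
      | (right; right; simp [Q, Complex.ext_iff]; norm_num; done)
      | (left; simp [Q, Complex.ext_iff]; done)
      | (right; left; simp [Q, Complex.ext_iff]; done)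
      | (right; right; simp [Q, Complex.ext_iff]; done)
  · rw [gc, gl]
    apply cross_ne
    fin_cases j <;> fin_cases k <;> fin_cases l <;>
      first
      | exact absurd ha (by decide)
      | exact absurd hb (by decide)
      | (left; simp [Q, Complex.ext_iff]; norm_num; done)
      | (right; left; simp [Q, Complex.ext_iff]; norm_num; done)
      | (right; right; simp [Q, Complex.ext_iff]; norm_num; done)
      | (left; simp [Q, Complex.ext_iff]; done)
      | (right; left; simp [Q, Complex.ext_iff]; done)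
      | (right; right; simp [Q, Complex.ext_iff]; done)
  · rw [gl, gl]
    apply cross_ne
    fin_cases j <;> fin_cases k <;> fin_cases l <;>
      first
      | exact absurd rfl hab
      | exact absurd ha (by decide)
      | exact absurd hb (by decide)
      | (left; simp; done)
      | (right; left; simp; done)
      | (right; right; simp; done)

lemma same_eval {p q : Fin 3 → ℂ} (h : Same p q) (a : Component) :
    eval p (F a) = 0 ↔ eval q (F a) = 0 := by
  obtain ⟨c, hc, rfl⟩ := h
  rcases a with j | j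
  · rw [evc, evc]
    have : ![c1 ((c • q) 0) ((c • q) 1) ((c • q) 2), c2 ((c • q) 0) ((c • q) 1) ((c • q) 2),
        c3 ((c • q) 0) ((c • q) 1) ((c • q) 2), c4 ((c • q) 0) ((c • q) 1) ((c • q) 2)] j =
        c ^ 2 * ![c1 (q 0) (q 1) (q 2), c2 (q 0) (q 1) (q 2), c3 (q 0) (q 1) (q 2),
          c4 (q 0) (q 1) (q 2)] j := by
      fin_cases j <;> simp [c1, c2, c3, c4] <;> ring
    rw [this]
    simp [hc]
  · rw [evl, evl]
    have : ![(c • q) 0, (c • q) 1, (c • q) 2, (c • q) 0 + (c • q) 1 + (c • q) 2] j =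
        c * ![q 0, q 1, q 2, q 0 + q 1 + q 2] j := by
      fin_cases j <;> simp <;> ring
    rw [this]
    simp [hc]

lemma same_cross {p q : Fin 3 → ℂ} (h : Same p q) : p 0 * q 1 = p 1 * q 0 := by
  obtain ⟨c, hc, rfl⟩ := h
  simp only [Pi.smul_apply, smul_eq_mul]
  ring

lemma T_ne (j : Fin 4) : T j ≠ 0 := by
  intro h
  have e1 := congrFun h 1
  have e0 := congrFun h 0
  fin_cases j <;> simp [T, Complex.ext_iff] at e0 e1

lemma Q_ne (j : Fin 9) : Q j ≠ 0 := by
  intro h
  have e2 := congrFun h 2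
  have e1 := congrFun h 1
  have e0 := congrFun h 0
  fin_cases j <;> simp [Q, Complex.ext_iff] at e0 e1 e2

lemma base_inj : ∀ j k : Fin 9, j ≠ k → baseSet j = baseSet k →
    (j = 1 ∧ k = 2) ∨ (j = 1 ∧ k = 3) ∨ (j = 2 ∧ k = 3) ∨
    (k = 1 ∧ j = 2) ∨ (k = 1 ∧ j = 3) ∨ (k = 2 ∧ j = 3) := by
  decide

lemma same_symm {p q : Fin 3 → ℂ} (h : Same p q) : Same q p := by
  obtain ⟨c, hc, rfl⟩ := h
  exact ⟨c⁻¹, inv_ne_zero hc, by rw [smul_smul, inv_mul_cancel₀ hc, one_smul]⟩

lemma Q12 : ¬ Same (Q 1) (Q 2) := by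
  intro h
  have := same_cross h
  simp [Q, Complex.ext_iff] at this
  norm_num at this

lemma Q13 : ¬ Same (Q 1) (Q 3) := by
  intro h
  have := same_cross h
  simp [Q, Complex.ext_iff] at this

lemma Q23 : ¬ Same (Q 2) (Q 3) := by
  intro h
  have := same_cross h
  simp [Q, Complex.ext_iff] at this
  norm_num at this

lemma Q_distinct (j k : Fin 9) (hjk : j ≠ k) : ¬ Same (Q j) (Q k) := by
  intro h
  have hs : baseSet j = baseSet k := by
    ext a
    rw [← incQ, ← incQ]
    exact same_eval h a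
  rcases base_inj j k hjk hs with ⟨rfl, rfl⟩ | ⟨rfl, rfl⟩ | ⟨rfl, rfl⟩ | ⟨rfl, rfl⟩ | ⟨rfl, rfl⟩ |
    ⟨rfl, rfl⟩
  · exact Q12 h
  · exact Q13 h
  · exact Q23 h
  · exact Q12 (same_symm h)
  · exact Q13 (same_symm h)
  · exact Q23 (same_symm h)

lemma T_distinct (j k : Fin 4) (hjk : j ≠ k) : ¬ Same (T j) (T k) := by
  intro h
  have h1 := (same_eval h (conic j)).1 ((incT j _).2 (Or.inl rfl))
  rcases (incT k _).1 h1 with h2 | h2
  · exact hjk (Component.conic.inj h2)
  · exact absurd h2 (by simp)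

lemma base_T : ∀ (j : Fin 4) (k : Fin 9), ∃ a ∈ baseSet k, ¬ (a = conic j ∨ a = line j) := by
  decide

lemma TQ_distinct (j : Fin 4) (k : Fin 9) : ¬ Same (T j) (Q k) := by
  intro h
  obtain ⟨a, ha, hn⟩ := base_T j k
  exact hn ((incT j a).1 ((same_eval h a).2 ((incQ k a).2 ha)))

lemma base_sep : ∀ a b : Component, a ≠ b → ∃ k : Fin 9, a ∈ baseSet k ∧ b ∉ baseSet k := by
  decide

lemma F_distinct (a b : Component) (hab : a ≠ b) : ¬ Associated (F a) (F b) := by
  rintro ⟨u, hu⟩
  obtain ⟨k, hk, hk'⟩ := base_sep a b hab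
  apply hk'
  rw [← incQ, ← hu, map_mul, (incQ k a).2 hk, zero_mul]

lemma grad_mul (f g : Poly) (p : Fin 3 → ℂ) :
    grad (f * g) p = eval p f • grad g p + eval p g • grad f p := by
  ext k
  simp [grad, Derivation.leibniz]

lemma prod_split (a : Component) : ∏ b, F b = F a * ∏ b ∈ Finset.univ.erase a, F b :=
  (Finset.mul_prod_erase _ _ (Finset.mem_univ a)).symm

lemma sing_iff (p : Fin 3 → ℂ) (hp : p ≠ 0) : IsSing (∏ a, F a) p ↔ Listed p := by
  constructor
  · rintro ⟨h0, h1⟩
    rw [map_prod, Finset.prod_eq_zero_iff] at h0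
    obtain ⟨a, -, ha⟩ := h0
    by_cases h : ∃ b, a ≠ b ∧ eval p (F b) = 0
    · obtain ⟨b, hab, hb⟩ := h
      exact classify hp hab ha hb
    · exfalso
      push Not at h
      rw [prod_split a, grad_mul, ha, zero_smul, zero_add] at h1
      rcases smul_eq_zero.1 h1 with h2 | h2
      · rw [map_prod, Finset.prod_eq_zero_iff] at h2
        obtain ⟨b, hb, hb'⟩ := h2
        exact h b (Finset.ne_of_mem_erase hb).symm hb'
      · exact smooth a p hp h2
  · intro h
    have key : ∃ a b, a ≠ b ∧ eval p (F a) = 0 ∧ eval p (F b) = 0 := by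
      rcases h with ⟨j, hj⟩ | ⟨k, hk⟩
      · exact ⟨conic j, line j, by simp, (same_eval hj _).2 ((incT j _).2 (Or.inl rfl)),
          (same_eval hj _).2 ((incT j _).2 (Or.inr rfl))⟩
      · have : ∀ k : Fin 9, ∃ a ∈ baseSet k, ∃ b ∈ baseSet k, a ≠ b := by decide
        obtain ⟨a, ha, b, hb, hab⟩ := this k
        exact ⟨a, b, hab, (same_eval hk _).2 ((incQ k _).2 ha),
          (same_eval hk _).2 ((incQ k _).2 hb)⟩
    obtain ⟨a, b, hab, ha, hb⟩ := key
    have hG : eval p (∏ b ∈ Finset.univ.erase a, F b) = 0 := by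
      rw [map_prod]
      exact Finset.prod_eq_zero (Finset.mem_erase.2 ⟨hab.symm, Finset.mem_univ b⟩) hb
    refine ⟨?_, ?_⟩
    · rw [prod_split a, map_mul, ha, zero_mul]
    · rw [prod_split a, grad_mul, ha, hG, zero_smul, zero_smul, add_zero]

/-- **The weak combinatorial type `W` is realizable.** -/
theorem result : ∃ F : Component → MvPolynomial (Fin 3) ℂ, HasTypeW F := by
  refine ⟨F, smoothCurve_conic, smoothCurve_line, F_distinct, T, Q, T_ne, Q_ne, T_distinct,
    Q_distinct, TQ_distinct, sing_iff, fun j => ⟨incT j, tangent j⟩, fun j => ⟨incQ j, ?_⟩⟩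
  intro a ha b hb hab
  exact ⟨(incQ j a).2 ha, (incQ j b).2 hb, trans_aux j a ha b hb hab⟩

end Pool.Agent.Results.MP_0c03d4_ag.Realizable
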